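import Pool.Agent.H272R3.MR.Alg

set_option autoImplicit false

/-! Minimal closed left saturated semigroups are finite right zero semigroups. -/

open Filter Set Topology

attribute [local instance] Ultrafilter.add Ultrafilter.addSemigroup

namespace Pool.Agent.H272R3.MR

variable {G : Type*} [AddCommGroup G]

theorem exists_depth (f : G → G) (h : ∀ z, ∃ n, f^[n] z = 0) :
    ∃ d : G → ℕ, d 0 = 0 ∧ ∀ z, z ≠ 0 → d z = d (f z) + 1 := by
  classical
  refine ⟨fun z => Nat.find (h z), ?_, ?_⟩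
  · simp
  · intro z hz
    rw [Nat.find_eq_iff]
    refine ⟨?_, ?_⟩
    · rw [Function.iterate_succ_apply]
      exact Nat.find_spec (h (f z))
    · intro m hm
      cases m with
      | zero => exact hz
      | succ m =>
        rw [Function.iterate_succ_apply]
        exact Nat.find_min (h (f z)) (Nat.lt_of_succ_lt_succ hm)

theorem exists_iter_zero (f : G → G) (d : G → ℕ) (h : ∀ z, z ≠ 0 → d (f z) < d z) :
    ∀ z, ∃ n, f^[n] z = 0 := by
  intro z
  induction hn : d z using Nat.strong_induction_on generalizing z with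
  | _ n ih =>
    by_cases hz : z = 0
    · exact ⟨0, hz⟩
    · obtain ⟨m, hm⟩ := ih (d (f z)) (hn ▸ h z hz) (f z) rfl
      exact ⟨m + 1, by rw [Function.iterate_succ_apply]; exact hm⟩

variable {q : Ultrafilter G} {f : G → G} {d : G → ℕ}

open Classical in
theorem Dec.newdec (h : Dec q f d) {x : Ultrafilter G} (hx : x ∈ CC q) {U : Set G} (hU : U ∈ x)
    (hU' : ∀ z : G, z ≠ 0 → ∀ᶠ y in (x : Filter G), z + y ∉ U) :
    ∃ f' d', Dec x f' d' := by
  set K : G → ℕ := fun w => Nat.findGreatest (fun k => w - f^[k] w ∈ U) (d w) with hK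
  set f' : G → G := fun w => if K w = 0 then 0 else f^[K w] w with hf'
  have f0 : f' 0 = 0 := by
    simp only [hf']
    split_ifs with h1
    · rfl
    · exact h.iter_zero _
  have hlt : ∀ z, z ≠ 0 → d (f' z) < d z := by
    intro z hz
    have hpos := h.d_pos hz
    simp only [hf']
    split_ifs with h1
    · rw [h.d0]; exact hpos
    · rw [h.d_iter]; omega
  obtain ⟨d', hd0, hds⟩ := exists_depth f' (exists_iter_zero f' d hlt)
  refine ⟨f', d', f0, hd0, hds, ?_⟩
  intro z
  have hfin : ∀ᶠ y in (x : Filter G), ∀ j ∈ Finset.Icc 1 (d z), (z - f^[j] z) + y ∉ U := by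
    rw [Filter.eventually_all_finset]
    intro j hj
    rw [Finset.mem_Icc] at hj
    apply hU'
    intro h0
    have h1 : z = f^[j] z := sub_eq_zero.1 h0
    have h2 := h.d_iter z j
    rw [← h1] at h2
    omega
  filter_upwards [h.E_mem hx z, h.ne_mem hx z, hU, hfin] with y hE hne hyU hfin'
  refine ⟨hne.2, ?_⟩
  have hdy := h.d_pos hne.1
  have hKw : K (z + y) = d y := by
    simp only [hK]
    rw [Nat.findGreatest_eq_iff]
    refine ⟨by omega, ?_, ?_⟩
    · intro _
      rw [hE.2]
      simpa using hyU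
    · intro n hn hn' hP
      obtain ⟨j, rfl⟩ : ∃ j, n = j + d y := ⟨n - d y, by omega⟩
      rw [Function.iterate_add_apply, hE.2] at hP
      refine hfin' j (Finset.mem_Icc.2 ⟨by omega, by omega⟩) ?_
      convert hP using 1
      abel
  simp only [hf', hKw]
  rw [if_neg (by omega), hE.2]

theorem image_closed (x : Ultrafilter G) (A : Set G) :
    IsClosed ((· + x) '' {s : Ultrafilter G | A ∈ s}) :=
  ((ultrafilter_isClosed_basic A).isCompact.image (Ultrafilter.continuous_add_left x)).isClosed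

theorem sepU {x y : Ultrafilter G} (hxy : ∀ s : Ultrafilter G, ({0}ᶜ : Set G) ∈ s → s + x ≠ y) :
    ∃ U ∈ y, ∀ z : G, z ≠ 0 → ∀ᶠ w in (x : Filter G), z + w ∉ U := by
  obtain ⟨U, hU, hU'⟩ := sepPoint (image_closed x {0}ᶜ) (x := y) (by
    rintro ⟨s, hs, hs'⟩
    exact hxy s hs hs')
  refine ⟨U, hU, fun z hz => ?_⟩
  have h1 := hU' (pure z + x) ⟨pure z, by simpa using hz, rfl⟩
  have h2 : ¬ ∀ᶠ w in (x : Filter G), z + w ∈ U := by
    intro h3
    apply h1
    rw [mem_add_iff]
    simpa using h3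
  rwa [← Ultrafilter.eventually_not] at h2

theorem minimal_idem (h : Dec q f d) {D : Set (Ultrafilter G)} (hD : Sat q D)
    (hmin : ∀ E, Sat q E → E ⊆ D → E = D) : ∀ x ∈ D, x + x = x := by
  intro x hxD
  have hDD : ∀ p ∈ D, p + p = p → DD p = D := fun p hp hpp =>
    hmin _ (hD.DD_sat hp hpp) (hD.DD_sub hp)
  by_cases hex : ∃ s : Ultrafilter G, ({0}ᶜ : Set G) ∈ s ∧ s + x = x
  · obtain ⟨s, hs, hsx⟩ := hex
    have hsD : s ∈ D := by
      rcases hD.sat s x hxD (by rwa [hsx]) with h1 | h1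
      · exact h1
      · exact (not_both h1 hs).elim
    obtain ⟨e, ⟨heD, hex⟩, hee⟩ := exists_idempotent_in_compact_add_subsemigroup
      Ultrafilter.continuous_add_left (D ∩ (· + x) ⁻¹' {x}) ⟨s, hsD, hsx⟩
      (hD.closed.inter (isClosed_singleton.preimage (Ultrafilter.continuous_add_left x))).isCompact
      (by
        rintro a ⟨ha, ha'⟩ b ⟨hb, hb'⟩
        refine ⟨hD.add a ha b hb, ?_⟩
        have ha' : a + x = x := ha'
        have hb' : b + x = x := hb'
        show a + b + x = x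
        rw [add_assoc, hb', ha'])
    have hex : e + x = x := hex
    have h1 : x ∈ DD e := by rw [hDD e heD hee]; exact hxD
    have h2 : x + e = e := h1.2
    calc x + x = x + (e + x) := by rw [hex]
      _ = (x + e) + x := by rw [add_assoc]
      _ = x := by rw [h2, hex]
  · exfalso
    push Not at hex
    obtain ⟨U, hU, hU'⟩ := sepU hex
    obtain ⟨f', d', h'⟩ := h.newdec (hD.sub hxD) hU hU'
    obtain ⟨p, hpD, hpp⟩ := hD.exists_idem
    have hxp : x + p = p := by
      have : x ∈ DD p := by rw [hDD p hpD hpp]; exact hxD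
      exact this.2
    have hsub : CC x ⊆ D := by
      intro t ht
      rw [← hDD p hpD hpp]
      refine ⟨ht.1, (uf_eq fun B hB => ?_).symm⟩
      rw [mem_add_iff]
      refine ht.2 {z | ∀ᶠ y in (p : Filter G), z + y ∈ B} ?_ ?_
      · intro z hz
        have h1 : {y | z + y ∈ B} ∈ x + p := by rw [hxp]; exact hz
        rw [mem_add_iff] at h1
        filter_upwards [h1] with v hv
        filter_upwards [hv] with y hy
        have : z + (v + y) ∈ B := hy
        rwa [← add_assoc] at this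
      · simpa using hB
    have hsatx := h'.sat_CC
    have hCx : CC x = D := hmin _ ⟨hsatx.closed, hsatx.ne, hsub.trans hD.sub, hsatx.add, hsatx.sat⟩
      hsub
    obtain ⟨e, heC, hee⟩ := hsatx.exists_idem
    have heD : e ∈ D := hsub heC
    have hxe : x + e = e := by
      have : x ∈ DD e := by rw [hDD e heD hee]; exact hxD
      exact this.2
    have hone : ∀ᶠ z in (x : Filter G), d' z = 1 := by
      filter_upwards [h'.dec 0] with y hy
      rw [zero_add] at hy
      rw [h'.ds y hy.1, hy.2, h'.d0]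
    have key : ∀ P : ℕ → Prop, {y | P (d' y)} ∈ e → {y | P (d' y + 1)} ∈ e := by
      intro P hP
      have h1 : {y | P (d' y)} ∈ x + e := by rw [hxe]; exact hP
      rw [mem_add_iff] at h1
      obtain ⟨z, hz1, hz2⟩ := (h1.and hone).exists
      filter_upwards [hz1, h'.E_mem heC z] with y hy1 hy2
      have : P (d' (z + y)) := hy1
      rw [hy2.1, hz2, add_comm] at this
      exact this
    rcases (e.mem_or_compl_mem {y | Even (d' y)}) with hE | hE
    · obtain ⟨y, hy1, hy2⟩ := (e.nonempty_of_mem (inter_mem hE (key Even hE)))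
      have hy1 : Even (d' y) := hy1
      have hy2 : Even (d' y + 1) := hy2
      rw [Nat.even_add_one] at hy2
      exact hy2 hy1
    · have hE' : {y | ¬ Even (d' y)} ∈ e := hE
      obtain ⟨y, hy1, hy2⟩ := (e.nonempty_of_mem (inter_mem hE' (key (fun n => ¬ Even n) hE')))
      have hy1 : ¬ Even (d' y) := hy1
      have hy2 : ¬ Even (d' y + 1) := hy2
      rw [Nat.even_add_one] at hy2
      exact hy2 hy1

theorem minimal_finite (h : Dec q f d) {D : Set (Ultrafilter G)} (hD : Sat q D)
    (hmin : ∀ E, Sat q E → E ⊆ D → E = D) : D.Finite := by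
  by_contra hinf
  have hinf : D.Infinite := hinf
  have hidem := minimal_idem h hD hmin
  have hrz : ∀ a ∈ D, ∀ b ∈ D, a + b = b := by
    intro a ha b hb
    have : a ∈ DD b := by
      rw [hmin _ (hD.DD_sat hb (hidem b hb)) (hD.DD_sub hb)]; exact ha
    exact this.2
  let xs : ℕ ↪ D := hinf.natEmbedding
  obtain ⟨x, hxD, hx⟩ := hD.closed.isCompact.ultrafilter_le_nhds
    ((hyperfilter ℕ).map (fun n => (xs n : Ultrafilter G)))
    (by
      rw [le_principal_iff]
      exact Filter.Eventually.of_forall (f := (hyperfilter ℕ : Filter ℕ)) fun n => (xs n).2)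
  have hlim : ∀ A ∈ x, ∀ᶠ n in (hyperfilter ℕ : Filter ℕ), A ∈ (xs n : Ultrafilter G) := by
    intro A hA
    exact hx ((ultrafilter_isOpen_basic A).mem_nhds hA)
  have hne : ∀ᶠ n in (hyperfilter ℕ : Filter ℕ), (xs n : Ultrafilter G) ≠ x := by
    apply hyperfilter_le_cofinite
    rw [Filter.mem_cofinite]
    apply Set.Subsingleton.finite
    intro a ha b hb
    simp only [ne_eq, mem_compl_iff, mem_ofPred_eq, not_not] at ha hb
    exact xs.injective (Subtype.ext (ha.trans hb.symm))
  have hxC := hD.sub hxD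
  have hW : ∀ k, ∃ W : Set G, 1 ≤ k →
      ((∀ z, d z = k → ∀ᶠ y in (x : Filter G), z + y ∈ W) ∧ ∀ p ∈ D, W ∉ p) := by
    intro k
    by_cases hk : 1 ≤ k
    swap
    · exact ⟨∅, fun h1 => (hk h1).elim⟩
    obtain ⟨W, hW1, hW2⟩ := sepSets (image_closed x {z | d z = k}) hD.closed (by
      rintro _ ⟨s, hs, rfl⟩ hsD
      have hs : {z | d z = k} ∈ s := hs
      rcases hD.sat s x hxD hsD with h1 | h1
      · have h2 : {z | d z = k} ∈ s + s := by rw [hidem s h1]; exact hs
        rw [mem_add_iff] at h2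
        obtain ⟨z, hz1, hz2⟩ := (h2.and hs).exists
        obtain ⟨y, ⟨hy1, hy2⟩, hy3⟩ := ((hz1.and hs).and (h.E_mem (hD.sub h1) z)).exists
        have hz2 : d z = k := hz2
        have hy1 : d (z + y) = k := hy1
        have hy2 : d y = k := hy2
        have := hy3.1
        omega
      · obtain ⟨z, hz1, hz2⟩ := s.nonempty_of_mem (inter_mem h1 hs)
        have hz1 : z = 0 := hz1
        have hz2 : d z = k := hz2
        rw [hz1, h.d0] at hz2
        omega)
    refine ⟨W, fun _ => ⟨fun z hz => ?_, hW2⟩⟩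
    have := hW1 (pure z + x) ⟨pure z, by simpa using hz, rfl⟩
    rw [mem_add_iff] at this
    simpa using this
  choose W hW using hW
  have hU : ∀ n, ∃ U : Set G, (xs n : Ultrafilter G) ≠ x →
      (U ∈ (xs n : Ultrafilter G) ∧ ∀ z : G, z ≠ 0 → ∀ᶠ w in (x : Filter G), z + w ∉ U) := by
    intro n
    by_cases hn : (xs n : Ultrafilter G) ≠ x
    swap
    · exact ⟨∅, fun h1 => (hn h1).elim⟩
    obtain ⟨U, hU, hU'⟩ := sepU (x := x) (y := (xs n : Ultrafilter G)) (by
      intro s hs hsx
      have h1 : (xs n : Ultrafilter G) + x = x := hrz _ (xs n).2 _ hxD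
      have h2 : (xs n : Ultrafilter G) + x = xs n := by
        rw [← hsx, add_assoc, hidem x hxD]
      exact hn (h2.symm.trans h1))
    exact ⟨U, fun _ => ⟨hU, hU'⟩⟩
  choose U hU using hU
  set V : Set G := {w | ∃ k, 1 ≤ k ∧ w ∈ W k ∧ ∀ n ≤ k, (xs n : Ultrafilter G) ≠ x → w ∉ U n}
    with hV
  have hVx : V ∈ x := by
    rw [← hidem x hxD, mem_add_iff]
    filter_upwards [hxC.1] with z hz
    have hz : z ≠ 0 := hz
    have hk : 1 ≤ d z := h.d_pos hz
    have hfin : ∀ᶠ y in (x : Filter G), ∀ n ∈ Finset.Iic (d z),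
        (xs n : Ultrafilter G) ≠ x → z + y ∉ U n := by
      rw [Filter.eventually_all_finset]
      intro n _
      by_cases hn : (xs n : Ultrafilter G) ≠ x
      · filter_upwards [(hU n hn).2 z hz] with y hy _
        exact hy
      · exact Eventually.of_forall fun y hn' => (hn hn').elim
    filter_upwards [(hW (d z) hk).1 z rfl, hfin] with y hy1 hy2
    exact ⟨d z, hk, hy1, fun n hn => hy2 n (Finset.mem_Iic.2 hn)⟩
  obtain ⟨n, hn1, hn2⟩ := ((hlim V hVx).and hne).exists
  have hfin2 : ∀ᶠ w in ((xs n : Ultrafilter G) : Filter G), ∀ k ∈ Finset.Icc 1 n, w ∉ W k := by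
    rw [Filter.eventually_all_finset]
    intro k hk
    rw [Finset.mem_Icc] at hk
    rw [Ultrafilter.eventually_not]
    exact (hW k hk.1).2 _ (xs n).2
  have hUn := (hU n hn2).1
  obtain ⟨w, ⟨hw1, hw2⟩, hw3⟩ := (((show ∀ᶠ w in ((xs n : Ultrafilter G) : Filter G), w ∈ V from
    hn1).and (show ∀ᶠ w in ((xs n : Ultrafilter G) : Filter G), w ∈ U n from hUn)).and
    hfin2).exists
  obtain ⟨k, hk, hwk, hwn⟩ := hw1
  by_cases hnk : n ≤ k
  · exact hwn n hnk hn2 hw2
  · exact hw3 k (Finset.mem_Icc.2 ⟨hk, by omega⟩) hwk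

/-- Summary: under a decoder, there is an idempotent `p` with finite right zero stabiliser. -/
theorem exists_good (h : Dec q f d) : ∃ p ∈ CC q, p + p = p ∧ (DD p).Finite ∧ DD p ⊆ CC q ∧
    ∀ a ∈ DD p, ∀ b ∈ DD p, a + b = b := by
  obtain ⟨D, hD, hmin⟩ := exists_minimal_sat h.sat_CC
  obtain ⟨p, hp, hpp⟩ := hD.exists_idem
  have hidem := minimal_idem h hD hmin
  have hDp : DD p = D := hmin _ (hD.DD_sat hp hpp) (hD.DD_sub hp)
  refine ⟨p, hD.sub hp, hpp, ?_, ?_, ?_⟩
  · rw [hDp]; exact minimal_finite h hD hmin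
  · rw [hDp]; exact hD.sub
  · rw [hDp]
    intro a ha b hb
    have : a ∈ DD b := by
      rw [hmin _ (hD.DD_sat hb (hidem b hb)) (hD.DD_sub hb)]; exact ha
    exact this.2

end Pool.Agent.H272R3.MR
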