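import Pool.Agent.H272R3.MR.Skeleton
import Pool.Agent.H272R3.MR.Defs

set_option autoImplicit false

/-! Thick sets, the starting ultrafilter, and the final topology. -/

universe u

open Filter Set Topology Cardinal Ordinal

attribute [local instance] Ultrafilter.add Ultrafilter.addSemigroup

namespace Pool.Agent.H272R3.MR

variable {G : Type u} [AddCommGroup G]

/-- contains a translate of every small set. -/
def Thick (B : Set G) : Prop := ∀ F : Set G, #F < #G → ∃ g : G, ∀ f ∈ F, g + f ∈ B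

theorem thick_compl {A : Set G} (h : ¬ KappaLarge A) : Thick Aᶜ := by
  intro F hF
  have h1 : #((fun x => -x) '' F) < #G := mk_image_le.trans_lt hF
  unfold KappaLarge at h
  push Not at h
  obtain ⟨g, hg⟩ := h _ h1
  refine ⟨g, fun f hf hA => hg (-f) ⟨f, hf, rfl⟩ (g + f) hA ?_⟩
  abel

theorem thick_shift {B : Set G} (h : Thick B) (x : G) : Thick {y | x + y ∈ B} := by
  intro F hF
  obtain ⟨g, hg⟩ := h F hF
  refine ⟨g - x, fun f hf => ?_⟩
  show x + (g - x + f) ∈ B
  convert hg f hf using 1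
  abel

theorem thick_mono {B B' : Set G} (h : Thick B) (hB : B ⊆ B') : Thick B' := by
  intro F hF
  obtain ⟨g, hg⟩ := h F hF
  exact ⟨g, fun f hf => hB (hg f hf)⟩

section
variable {I : Type u} [LinearOrder I] {H : I → AddSubgroup G} {t : I → G} {c1 : I → I} {c2 : I → ℕ}

omit [LinearOrder I] in
theorem thick_inter (hinf : ℵ₀ ≤ #G) (hcov : ∀ g, ∃ a, g ∈ H a) (hI : #I < #G)
    (hHc : ∀ a, #(H a) < #G) {B1 B2 : Set G} (h1 : Thick B1) (h2 : Thick B2) :
    Thick (B1 ∩ B2) := by
  intro F hF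
  have hK : ∀ a : I, ∃ g : G, ∀ f ∈ F, ∀ x ∈ H a, g + (f + x) ∈ B1 := by
    intro a
    obtain ⟨g, hg⟩ := h1 (image2 (fun f x => f + x) F (H a : Set G))
      (mk_image2_le.trans_lt (mul_lt_of_lt hinf hF (hHc a)))
    exact ⟨g, fun f hf x hx => hg _ ⟨f, hf, x, hx, rfl⟩⟩
  choose g hg using hK
  have hsm : #(range g) < #G := mk_range_le.trans_lt hI
  obtain ⟨k, hk⟩ := h2 (image2 (fun x f => x + f) (range g) F)
    (mk_image2_le.trans_lt (mul_lt_of_lt hinf hsm hF))
  obtain ⟨b, hb⟩ := hcov k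
  refine ⟨k + g b, fun f hf => ⟨?_, ?_⟩⟩
  · convert hg b f hf k hb using 1
    abel
  · have := hk _ ⟨g b, ⟨b, rfl⟩, f, hf, rfl⟩
    rwa [← add_assoc] at this

open Classical in
theorem exists_q [WellFoundedLT I] (hinf : ℵ₀ ≤ #G) (hS : Skel H t c1 c2) (hI : #I < #G)
    (hHc : ∀ a, #(H a) < #G) :
    ∃ (q : Ultrafilter G) (f : G → G) (d : G → ℕ), Dec q f d ∧
      (∀ i, ∀ᶠ y in (q : Filter G), ∀ x ∈ H i, f (x + y) = x ∧ x + y ∉ H i) ∧
      ∀ B : Set G, Thick B → B ∈ q := by
  -- normal forms of cosets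
  let nf : I → G → G := fun i z => (Quotient.out (QuotientAddGroup.mk z : G ⧸ H i))
  have hnf1 : ∀ i z, z - nf i z ∈ H i := by
    intro i z
    have h1 : (QuotientAddGroup.mk (nf i z) : G ⧸ H i) = QuotientAddGroup.mk z :=
      Quotient.out_eq _
    rw [QuotientAddGroup.eq] at h1
    have : z - nf i z = -nf i z + z := by abel
    rw [this]; exact h1
  have hnf2 : ∀ i z z', z - z' ∈ H i → nf i z = nf i z' := by
    intro i z z' hzz
    have : (QuotientAddGroup.mk z : G ⧸ H i) = QuotientAddGroup.mk z' := by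
      rw [QuotientAddGroup.eq]
      have h1 : -z + z' = -(z - z') := by abel
      rw [h1]; exact neg_mem hzz
    simp only [nf, this]
  have hnf3 : ∀ i z, nf i (nf i z) = nf i z := by
    intro i z
    apply hnf2
    have := neg_mem (hnf1 i z)
    convert this using 1
    abel
  let f : G → G := fun z => if h : ∃ a, IsLev H z a ∧ c1 a < a then z - nf (c1 h.choose) z else 0
  have hf : ∀ z a, IsLev H z a → c1 a < a → f z = z - nf (c1 a) z := by
    intro z a ha hc
    have hex : ∃ a, IsLev H z a ∧ c1 a < a := ⟨a, ha, hc⟩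
    have heq : hex.choose = a := hex.choose_spec.1.unique ha
    simp only [f]
    rw [dif_pos hex, heq]
  have hterm : ∀ a, ∀ z ∈ H a, ∃ n, f^[n] z = 0 := by
    intro a
    induction a using WellFoundedLT.induction with
    | ind a ih =>
      intro z hz
      by_cases hex : ∃ b, IsLev H z b ∧ c1 b < b
      · obtain ⟨b, hb, hb'⟩ := hex
        have hba : b < a := by
          by_contra hcon
          exact hb.1 (hS.mono (not_lt.1 hcon) hz)
        obtain ⟨n, hn⟩ := ih (c1 b) (hb'.trans hba) (f z) (by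
          rw [hf z b hb hb']; exact hnf1 _ _)
        exact ⟨n + 1, by rw [Function.iterate_succ_apply]; exact hn⟩
      · refine ⟨1, ?_⟩
        rw [Function.iterate_one]
        simp only [f]
        rw [dif_neg hex]
  obtain ⟨d, hd0, hds⟩ := exists_depth f (fun z => by
    obtain ⟨a, ha⟩ := hS.cov z
    exact hterm a z ha)
  let Y : I → Set G := fun i => {y | ∃ a, IsLev H y a ∧ i ≤ c1 a ∧ c1 a < a ∧ nf (c1 a) y = y}
  have hYanti : ∀ i j, i ≤ j → Y j ⊆ Y i := by
    rintro i j hij y ⟨a, h1, h2, h3, h4⟩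
    exact ⟨a, h1, hij.trans h2, h3, h4⟩
  have hYthick : ∀ B, Thick B → ∀ i, (B ∩ Y i).Nonempty := by
    intro B hB i
    have hsm : #(range t) < #G := mk_range_le.trans_lt hI
    obtain ⟨g, hg⟩ := hB (image2 (fun a h => a - h) (range t) (H i : Set G))
      (mk_image2_le.trans_lt (mul_lt_of_lt hinf hsm (hHc i)))
    obtain ⟨a, ha1, ha2, ha3⟩ := hS.c1 i g
    have h1 : g + t a - nf i (g + t a) ∈ H i := hnf1 i (g + t a)
    have h2 : nf i (g + t a) ∈ B := by
      have h5 : g + (t a - (g + t a - nf i (g + t a))) ∈ B := hg _ ⟨t a, ⟨a, rfl⟩, _, h1, rfl⟩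
      have h6 : g + (t a - (g + t a - nf i (g + t a))) = nf i (g + t a) := by abel
      rwa [h6] at h5
    have h3 : nf i (g + t a) - t a ∈ H a := by
      have := sub_mem ha2 (hS.mono ha1.le h1)
      convert this using 1
      abel
    refine ⟨nf i (g + t a), h2, a, ⟨?_, ?_⟩, ha3.ge, by rw [ha3]; exact ha1, ?_⟩
    · intro h4
      apply hS.t_not a
      have := sub_mem h4 h3
      convert this using 1
      abel
    · intro b hb
      have := add_mem (hS.mono hb.le h3) (hS.t_mem a b hb)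
      convert this using 1
      abel
    · rw [ha3]; exact hnf3 i _
  obtain ⟨i0, -⟩ := hS.cov 0
  let F : Filter G :=
    { sets := {S | ∃ B, Thick B ∧ ∃ i, B ∩ Y i ⊆ S}
      univ_sets := ⟨univ, fun F _ => ⟨0, fun _ _ => mem_univ _⟩, i0, subset_univ _⟩
      sets_of_superset := by
        rintro S S' ⟨B, hB, i, hBS⟩ hSS
        exact ⟨B, hB, i, hBS.trans hSS⟩
      inter_sets := by
        rintro S S' ⟨B, hB, i, hBS⟩ ⟨B', hB', i', hBS'⟩
        refine ⟨B ∩ B', thick_inter hinf hS.cov hI hHc hB hB', max i i', ?_⟩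
        rintro y ⟨⟨h1, h2⟩, h3⟩
        exact ⟨hBS ⟨h1, hYanti _ _ (le_max_left _ _) h3⟩,
          hBS' ⟨h2, hYanti _ _ (le_max_right _ _) h3⟩⟩ }
  have hF : F.NeBot := by
    constructor
    intro hbot
    have : (∅ : Set G) ∈ F := by rw [hbot]; exact mem_bot
    obtain ⟨B, hB, i, hB'⟩ := this
    obtain ⟨v, hv⟩ := hYthick B hB i
    exact hB' hv
  let q : Ultrafilter G := Ultrafilter.of F
  have hqY : ∀ i, Y i ∈ q := fun i =>
    Ultrafilter.of_le F ⟨univ, fun F _ => ⟨0, fun _ _ => mem_univ _⟩, i, inter_subset_right⟩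
  have hqB : ∀ B, Thick B → B ∈ q := fun B hB =>
    Ultrafilter.of_le F ⟨B, hB, i0, inter_subset_left⟩
  have hd' : ∀ i, ∀ᶠ y in (q : Filter G), ∀ x ∈ H i, f (x + y) = x ∧ x + y ∉ H i := by
    intro i
    filter_upwards [hqY i] with y ⟨a, h1, h2, h3, h4⟩ x hx
    have hxa : x ∈ H a := hS.mono (h2.trans h3.le) hx
    have hnot : x + y ∉ H a := by
      intro h5
      apply h1.1
      have := sub_mem h5 hxa
      convert this using 1
      abel
    have hlev : IsLev H (x + y) a :=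
      ⟨hnot, fun b hb => add_mem (hS.mono hb.le hxa) (h1.2 b hb)⟩
    refine ⟨?_, fun h5 => hnot (hS.mono (h2.trans h3.le) h5)⟩
    rw [hf _ a hlev h3, hnf2 (c1 a) (x + y) y (by
      rw [add_sub_cancel_right]; exact hS.mono h2 hx), h4]
    abel
  refine ⟨q, f, d, ⟨?_, hd0, hds, ?_⟩, hd', hqB⟩
  · have hno : ¬ ∃ a, IsLev H 0 a ∧ c1 a < a := by
      rintro ⟨a, h1, -⟩
      exact h1.1 (zero_mem _)
    simp only [f]
    rw [dif_neg hno]
  · intro x
    obtain ⟨i, hi⟩ := hS.cov x
    filter_upwards [hd' i] with y hy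
    refine ⟨fun h0 => (hy x hi).2 (by rw [h0]; exact zero_mem _), (hy x hi).1⟩

end

theorem thick_mem_CC {q p : Ultrafilter G} (hq : ∀ B : Set G, Thick B → B ∈ q) (hp : p ∈ CC q)
    {B : Set G} (hB : Thick B) : B ∈ p := by
  have h1 : insert 0 B ∈ p := by
    refine hp.2 _ ?_ (mem_insert _ _)
    intro x _
    filter_upwards [hq _ (thick_shift hB x)] with y hy
    exact Or.inr hy
  filter_upwards [h1, hp.1] with y h2 h3
  exact h2.resolve_left h3

/-- Existence of the strongly right maximal idempotent all of whose members are large. -/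
theorem exists_P (hinf : ℵ₀ ≤ #G) (hsing : (#G).ord.cof < #G) :
    ∃ P : Ultrafilter G, P + P = P ∧ ({0}ᶜ : Set G) ∈ P ∧
      (∀ s : Ultrafilter G, s + P = P → ({0} : Set G) ∈ s ∨ s = P) ∧ ∀ A ∈ P, KappaLarge A := by
  obtain ⟨I, i1, i2, H, t, c1, c2, hS, hI, hHc⟩ := exists_skel hinf hsing
  obtain ⟨q, f, d, hdec, hd', hqB⟩ := exists_q hinf hS hI hHc
  obtain ⟨p, hp, hpp, hfin, -, hrz⟩ := exists_good hdec
  obtain ⟨F, X, hXp, hcl, h1, h2, h3⟩ := reembed hS hdec hd' hp hpp hfin hrz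
  have hunc : ℵ₀ < #G := by
    have : ℵ₀ ≤ (#G).ord.cof := by
      rw [aleph0_le_cof_iff, one_lt_cof_iff]
      exact isSuccLimit_ord hinf
    exact this.trans_lt hsing
  refine ⟨p.map F, h1, h2, h3, fun C hC => ?_⟩
  have hA : X ∩ F ⁻¹' C ∈ p := inter_mem hXp hC
  have hlarge : KappaLarge (X ∩ F ⁻¹' C) := by
    by_contra hcon
    exact Ultrafilter.compl_mem_iff_notMem.1 (thick_mem_CC hqB hp (thick_compl hcon)) hA
  obtain ⟨F0, hF0, hF0'⟩ := hlarge
  refine ⟨image2 (fun a b => a - b) F0 (AddSubgroup.closure (range t) : Set G), ?_, ?_⟩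
  · exact mk_image2_le.trans_lt (mul_lt_of_lt hinf hF0
      (mk_closure_lt hunc (mk_range_le.trans_lt hI)))
  · intro g
    obtain ⟨a, ha, b, ⟨hbX, hbC⟩, hab⟩ := hF0' g
    refine ⟨a - (F b - b), ⟨a, ha, F b - b, hcl b hbX, rfl⟩, F b, hbC, ?_⟩
    rw [← hab]
    abel

theorem main (hinf : ℵ₀ ≤ #G) (hsing : (#G).ord.cof < #G) :
    ∃ τ : TopologicalSpace G, MaximalTopology τ ∧ @T3Space G τ ∧
      (∀ g : G, @Continuous G G τ τ (fun x => g + x)) ∧
      ∀ U : Set G, U ∈ @nhds G τ 0 → KappaLarge U := by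
  obtain ⟨P, hPP, hfree, hst, hlarge⟩ := exists_P hinf hsing
  let τ : TopologicalSpace G :=
    { IsOpen := fun U => ∀ x ∈ U, ∀ᶠ y in (P : Filter G), x + y ∈ U
      isOpen_univ := fun x _ => Eventually.of_forall fun y => mem_univ _
      isOpen_inter := by
        intro U V hU hV x hx
        filter_upwards [hU x hx.1, hV x hx.2] with y h1 h2
        exact ⟨h1, h2⟩
      isOpen_sUnion := by
        intro 𝒰 h𝒰 x hx
        obtain ⟨U, hU, hxU⟩ := hx
        filter_upwards [h𝒰 U hU x hxU] with y hy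
        exact ⟨U, hU, hy⟩ }
  have hopen : ∀ U : Set G, IsOpen[τ] U ↔ ∀ x ∈ U, ∀ᶠ y in (P : Filter G), x + y ∈ U :=
    fun U => Iff.rfl
  have hdouble : ∀ (z : G) (B : Set G), (∀ᶠ y in (P : Filter G), z + y ∈ B) ↔
      ∀ᶠ y in (P : Filter G), ∀ᶠ y' in (P : Filter G), (z + y) + y' ∈ B := by
    intro z B
    have h1 : {y | z + y ∈ B} ∈ P ↔ {y | z + y ∈ B} ∈ P + P := by rw [hPP]
    rw [mem_add_iff] at h1
    have h2 : (∀ᶠ y in (P : Filter G), ∀ᶠ y' in (P : Filter G), y + y' ∈ {y | z + y ∈ B}) ↔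
        ∀ᶠ y in (P : Filter G), ∀ᶠ y' in (P : Filter G), (z + y) + y' ∈ B := by
      simp only [mem_ofPred_eq, add_assoc]
    rw [← h2]
    exact h1
  have hnhds : ∀ (x : G) (U : Set G), U ∈ @nhds G τ x ↔
      x ∈ U ∧ ∀ᶠ y in (P : Filter G), x + y ∈ U := by
    intro x U
    rw [@mem_nhds_iff G τ _ _]
    constructor
    · rintro ⟨V, hVU, hV, hxV⟩
      exact ⟨hVU hxV, ((hopen V).1 hV x hxV).mono fun y hy => hVU hy⟩
    · rintro ⟨h1, h2⟩
      refine ⟨{z | z ∈ U ∧ ∀ᶠ y in (P : Filter G), z + y ∈ U}, fun z hz => hz.1, ?_, h1, h2⟩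
      rw [hopen]
      rintro z ⟨-, hz⟩
      filter_upwards [hz, (hdouble z U).1 hz] with y h3 h4
      exact ⟨h3, h4⟩
  have hnp : ∀ c : G, ∀ᶠ y in (P : Filter G), y ≠ c := by
    intro c
    by_contra hcon
    have h1 : {c} ∈ P := by
      by_contra h2
      exact hcon (Ultrafilter.compl_mem_iff_notMem.2 h2)
    have h2 : {c} ∈ P + P := by rw [hPP]; exact h1
    rw [mem_add_iff] at h2
    have h1' : ∀ᶠ y in (P : Filter G), y = c := h1
    obtain ⟨x, hx1, hx2⟩ := (h2.and h1').exists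
    obtain ⟨y, hy1, hy2⟩ := (hx1.and h1').exists
    have hy1 : x + y = c := hy1
    rw [hx2, hy2] at hy1
    have hc0 : c = 0 := by simpa using hy1
    rw [hc0] at h1
    exact not_both h1 hfree
  refine ⟨τ, ⟨?_, ?_⟩, ?_, ?_, ?_⟩
  · intro x hx
    have h1 := (hopen _).1 hx x rfl
    obtain ⟨y, hy1, hy2⟩ := (h1.and (hnp 0)).exists
    have hy1 : x + y = x := hy1
    exact hy2 (by simpa using hy1)
  · intro τ' hlt
    have hle : ∀ V, IsOpen[τ] V → IsOpen[τ'] V := TopologicalSpace.le_def.1 hlt.le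
    have hnle : ¬ ∀ V, IsOpen[τ'] V → IsOpen[τ] V := fun h1 =>
      hlt.not_ge (TopologicalSpace.le_def.2 h1)
    push Not at hnle
    obtain ⟨V, hV', hV⟩ := hnle
    rw [hopen] at hV
    push Not at hV
    obtain ⟨x, hxV, hx⟩ := hV
    have hN : insert x Vᶜ ∈ @nhds G τ x := by
      rw [hnhds]
      exact ⟨mem_insert _ _, hx.mono fun y hy => Or.inr hy⟩
    rw [@mem_nhds_iff G τ _ _] at hN
    obtain ⟨W, hWN, hW, hxW⟩ := hN
    refine ⟨x, ?_⟩
    have h2 : ({x} : Set G) = W ∩ V := by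
      apply Subset.antisymm
      · rintro z rfl
        exact ⟨hxW, hxV⟩
      · rintro z ⟨hz1, hz2⟩
        rcases hWN hz1 with h3 | h3
        · exact h3
        · exact (h3 hz2).elim
    rw [h2]
    exact @IsOpen.inter G τ' _ _ (hle W hW) hV'
  · have hreg : @RegularSpace G τ := by
      refine @RegularSpace.of_exists_mem_nhds_isClosed_subset G τ ?_
      intro x U hU
      rw [hnhds] at hU
      obtain ⟨hxU, hU⟩ := hU
      obtain ⟨B, hB, hBC⟩ := exists_B (p := P) (X := univ) (mem_univ _)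
        (fun x _ s hs hne => by
          exfalso
          rcases hst s hs.2 with h1 | h1
          · exact not_both h1 hs.1
          · exact hne h1) (x := x) (mem_univ _) (C := {y | x + y ∈ U}) hU
      refine ⟨{z | ∀ᶠ y in (P : Filter G), (z - x) + y ∈ B}, ?_, ?_, ?_⟩
      · rw [hnhds]
        have h1 : ∀ᶠ y in (P : Filter G), (0 : G) + y ∈ B := by simpa using hB
        refine ⟨by simpa using hB, ?_⟩
        have h2 := (hdouble 0 B).1 h1
        refine h2.mono fun y hy => ?_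
        show ∀ᶠ y' in (P : Filter G), (x + y - x) + y' ∈ B
        have h3 : x + y - x = 0 + y := by abel
        rw [h3]; exact hy
      · rw [← @isOpen_compl_iff G _ τ, hopen]
        intro z hz
        have hz : ¬ ∀ᶠ y in (P : Filter G), (z - x) + y ∈ B := hz
        rw [hdouble, Filter.not_eventually, Ultrafilter.frequently_iff_eventually] at hz
        refine hz.mono fun y hy => ?_
        show ¬ ∀ᶠ y' in (P : Filter G), (z + y - x) + y' ∈ B
        have h3 : z + y - x = z - x + y := by abel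
        rw [h3]; exact hy
      · intro z hz
        have hz : ∀ᶠ y in (P : Filter G), (z - x) + y ∈ B := hz
        rcases hBC (z - x) hz (Or.inl (mem_univ _)) with h1 | h1
        · have h1 : x + (z - x) ∈ U := h1
          rwa [_root_.add_sub_cancel] at h1
        · rw [sub_eq_zero] at h1
          rw [h1]; exact hxU
    have hT1 : @T1Space G τ := by
      refine @T1Space.mk G τ fun x => ?_
      rw [← @isOpen_compl_iff G _ τ, hopen]
      intro z hz
      filter_upwards [hnp (x - z)] with y hy hzy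
      apply hy
      have hzy : z + y = x := hzy
      rw [← hzy]; abel
    exact @T3Space.mk G τ (@T1Space.t0Space G τ hT1) hreg
  · intro g
    refine @Continuous.mk G G τ τ _ ?_
    intro U hU
    rw [hopen] at hU ⊢
    intro x hx
    filter_upwards [hU (g + x) hx] with y hy
    show g + (x + y) ∈ U
    rwa [← add_assoc]
  · intro U hU
    rw [hnhds] at hU
    apply hlarge
    have := hU.2
    simpa using this

end Pool.Agent.H272R3.MR
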