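import Pool.Agent.H272R3.MR.Stage

set_option autoImplicit false

/-! The re-embedding that produces a strongly right maximal idempotent. -/

open Filter Set Topology

attribute [local instance] Ultrafilter.add Ultrafilter.addSemigroup

namespace Pool.Agent.H272R3.MR

variable {G : Type*} [AddCommGroup G]

omit [AddCommGroup G] in
theorem exists_parts (P : G → Prop) (fst rst : G → G) (d : G → ℕ)
    (h : ∀ z, P z → d (rst z) < d z) :
    ∃ parts : G → List G, (∀ z, ¬ P z → parts z = []) ∧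
      (∀ z, P z → parts z = fst z :: parts (rst z)) := by
  classical
  let F : ∀ z : G, (∀ y : G, d y < d z → List G) → List G := fun z rec =>
    if hz : P z then fst z :: rec (rst z) (h z hz) else []
  let parts : G → List G := (measure d).wf.fix F
  refine ⟨parts, fun z hz => ?_, fun z hz => ?_⟩
  · show (measure d).wf.fix F z = []
    rw [WellFounded.fix_eq]
    simp only [F]
    rw [dif_neg hz]
  · show (measure d).wf.fix F z = _
    rw [WellFounded.fix_eq]
    simp only [F]
    rw [dif_pos hz]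

section
variable {I : Type*} [LinearOrder I]

/-- `z` has level `a`. -/
def IsLev (H : I → AddSubgroup G) (z : G) (a : I) : Prop := z ∉ H a ∧ ∀ b, a < b → z ∈ H b

theorem IsLev.unique {H : I → AddSubgroup G} {z : G} {a b : I} (ha : IsLev H z a)
    (hb : IsLev H z b) : a = b := by
  rcases lt_trichotomy a b with h | h | h
  · exact (hb.1 (ha.2 b h)).elim
  · exact h
  · exact (ha.1 (hb.2 a h)).elim

/-- The skeleton of a group of singular cardinality. -/
structure Skel (H : I → AddSubgroup G) (t : I → G) (c1 : I → I) (c2 : I → ℕ) : Prop where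
  mono : Monotone H
  cov : ∀ g, ∃ a, g ∈ H a
  t_not : ∀ a, t a ∉ H a
  t_mem : ∀ a b, a < b → t a ∈ H b
  c1 : ∀ β g, ∃ a, β < a ∧ g ∈ H a ∧ c1 a = β
  c2 : ∀ n g, ∃ a, g ∈ H a ∧ c2 a = n

open Classical in
/-- the marked decoder. -/
theorem exists_g [WellFoundedLT I] {H : I → AddSubgroup G} (hH : Monotone H)
    (hcov : ∀ g, ∃ a, g ∈ H a)
    (t : I → G) (c2 : I → ℕ) (f : G → G) :
    ∃ (g : G → G) (dg : G → ℕ), (∀ z, z ≠ 0 → dg (g z) < dg z) ∧
      ∀ z a, IsLev H z a → f^[c2 a] (z - t a) ∈ H a → g z = f^[c2 a] (z - t a) := by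
  let g : G → G := fun z => if h : ∃ a, IsLev H z a ∧ f^[c2 a] (z - t a) ∈ H a then
    f^[c2 h.choose] (z - t h.choose) else 0
  have hg : ∀ z a, IsLev H z a → f^[c2 a] (z - t a) ∈ H a → g z = f^[c2 a] (z - t a) := by
    intro z a ha hf
    have hex : ∃ a, IsLev H z a ∧ f^[c2 a] (z - t a) ∈ H a := ⟨a, ha, hf⟩
    have heq : hex.choose = a := hex.choose_spec.1.unique ha
    simp only [g]
    rw [dif_pos hex, heq]
  have hterm : ∀ a, ∀ z ∈ H a, ∃ n, g^[n] z = 0 := by
    intro a
    induction a using WellFoundedLT.induction with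
    | ind a ih =>
      intro z hz
      by_cases hex : ∃ b, IsLev H z b ∧ f^[c2 b] (z - t b) ∈ H b
      · obtain ⟨b, hb, hb'⟩ := hex
        have hba : b < a := by
          by_contra hcon
          exact hb.1 (hH (not_lt.1 hcon) hz)
        obtain ⟨n, hn⟩ := ih b hba (g z) (by rw [hg z b hb hb']; exact hb')
        exact ⟨n + 1, by rw [Function.iterate_succ_apply]; exact hn⟩
      · refine ⟨1, ?_⟩
        rw [Function.iterate_one]
        simp only [g]
        rw [dif_neg hex]
  obtain ⟨dg, hd0, hds⟩ := exists_depth g (fun z => by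
    obtain ⟨a, ha⟩ := hcov z
    exact hterm a z ha)
  exact ⟨g, dg, fun z hz => by rw [hds z hz]; omega, hg⟩

open Classical in
theorem reembed [WellFoundedLT I] {H : I → AddSubgroup G} {t : I → G} {c1 : I → I} {c2 : I → ℕ}
    (hS : Skel H t c1 c2) {q : Ultrafilter G} {f : G → G} {d : G → ℕ} (h : Dec q f d)
    (hd' : ∀ i, ∀ᶠ y in (q : Filter G), ∀ x ∈ H i, f (x + y) = x ∧ x + y ∉ H i)
    {p : Ultrafilter G} (hp : p ∈ CC q) (hpp : p + p = p) (hfin : (DD p).Finite)
    (hrz : ∀ a ∈ DD p, ∀ b ∈ DD p, a + b = b) :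
    ∃ (F : G → G) (X : Set G), X ∈ p ∧
      (∀ z ∈ X, F z - z ∈ AddSubgroup.closure (range t)) ∧
      p.map F + p.map F = p.map F ∧ ({0}ᶜ : Set G) ∈ p.map F ∧
      ∀ s : Ultrafilter G, s + p.map F = p.map F → ({0} : Set G) ∈ s ∨ s = p.map F := by
  choose α hα using fun x => hS.c2 (d x) x
  obtain ⟨X, W, hX0, hXp, hX1, hXD, hWx⟩ :=
    exists_W hS.mono hS.cov h hd' hp hpp hfin hrz (fun x => t (α x))
  set K : G → ℕ := fun z => Nat.findGreatest
    (fun k => f^[k] z ∈ X ∧ f^[k] z ≠ 0 ∧ z - f^[k] z ∈ W (f^[k] z)) (d z) with hK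
  set fst : G → G := fun z => f^[K z] z with hfst
  set rst : G → G := fun z => z - fst z with hrst
  have hfr : ∀ z, fst z + rst z = z := fun z => by simp only [hrst]; abel
  have hf1 : ∀ z, z ∈ X ∧ z ≠ 0 → fst z ∈ X ∧ fst z ≠ 0 ∧ rst z ∈ W (fst z) := by
    rintro z ⟨hz, hz0⟩
    exact Nat.findGreatest_spec (P := fun k => f^[k] z ∈ X ∧ f^[k] z ≠ 0 ∧
      z - f^[k] z ∈ W (f^[k] z)) (Nat.zero_le (d z)) (by
        refine ⟨hz, hz0, ?_⟩
        simp only [Function.iterate_zero, id_eq, sub_self]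
        exact (hWx z hz).2.1)
  have hrX : ∀ z, z ∈ X ∧ z ≠ 0 → rst z ∈ X := by
    intro z hz
    obtain ⟨h1, h2, h3⟩ := hf1 z hz
    by_cases h0 : rst z = 0
    · rw [h0]; exact hX0
    · exact ((hWx _ h1).1 _ h3 h0).1
  have hdsum : ∀ z, z ∈ X ∧ z ≠ 0 → d z = d (fst z) + d (rst z) := by
    intro z hz
    obtain ⟨h1, h2, h3⟩ := hf1 z hz
    by_cases h0 : rst z = 0
    · have : fst z = z := by have := hfr z; rwa [h0, add_zero] at this
      rw [h0, h.d0, this]; rfl
    · have := ((hWx _ h1).1 _ h3 h0).2.2.2.1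
      rwa [hfr z] at this
  have hdlt : ∀ z, z ∈ X ∧ z ≠ 0 → d (rst z) < d z := by
    intro z hz
    have h1 := hdsum z hz
    have h2 := h.d_pos (hf1 z hz).2.1
    omega
  have hSt : ∀ z, z ∈ X ∧ z ≠ 0 → ∀ᶠ y in (p : Filter G),
      (z + y ∈ X ∧ z + y ≠ 0) ∧ fst (z + y) = fst z := by
    intro z hz
    obtain ⟨h1, h2, h3⟩ := hf1 z hz
    have hfin : ∀ᶠ y in (p : Filter G), ∀ j ∈ Finset.Ioc (K z) (d z),
        ¬ (f^[j] z ∈ X ∧ f^[j] z ≠ 0 ∧ (z + y) - f^[j] z ∈ W (f^[j] z)) := by
      rw [Filter.eventually_all_finset]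
      intro j hj
      rw [Finset.mem_Ioc] at hj
      by_cases hjX : f^[j] z ∈ X ∧ f^[j] z ≠ 0
      swap
      · exact Eventually.of_forall fun y hy => hjX ⟨hy.1, hy.2.1⟩
      have hnot : z - f^[j] z ∉ W (f^[j] z) := by
        intro hmem
        exact Nat.findGreatest_is_greatest (P := fun k => f^[k] z ∈ X ∧ f^[k] z ≠ 0 ∧
          z - f^[k] z ∈ W (f^[k] z)) hj.1 hj.2 ⟨hjX.1, hjX.2, hmem⟩
      have h4 := (hWx _ hjX.1).2.2.2 (z - f^[j] z) (Or.inr (by
        rw [add_sub_cancel]; exact hz.1))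
      have h5 : ¬ ∀ᶠ y in (p : Filter G), z - f^[j] z + y ∈ W (f^[j] z) := fun h6 => hnot (h4 h6)
      rw [← Ultrafilter.eventually_not] at h5
      filter_upwards [h5] with y hy hcon
      apply hy
      convert hcon.2.2 using 1
      abel
    filter_upwards [hX1 z hz.1, h.E_mem hp z, h.ne_mem hp z, (hWx _ h1).2.2.1 _ h3, hfin]
      with y hy1 hy2 hy3 hy4 hy5
    refine ⟨⟨hy1, hy3.2⟩, ?_⟩
    have hKle : K z ≤ d z := Nat.findGreatest_le _
    have hKy : K (z + y) = K z + d y := by
      simp only [hK]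
      rw [Nat.findGreatest_eq_iff]
      refine ⟨?_, ?_, ?_⟩
      · rw [hy2.1]
        exact Nat.add_le_add_right hKle _
      · intro _
        have h6 : f^[Nat.findGreatest (fun k => f^[k] z ∈ X ∧ f^[k] z ≠ 0 ∧
            z - f^[k] z ∈ W (f^[k] z)) (d z) + d y] (z + y) = fst z := by
          rw [Function.iterate_add_apply, hy2.2]
        rw [h6]
        refine ⟨h1, h2, ?_⟩
        convert hy4 using 1
        simp only [hrst]
        abel
      · intro n hn hn'
        rw [hy2.1] at hn'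
        obtain ⟨j, rfl⟩ : ∃ j, n = j + d y := ⟨n - d y, by omega⟩
        rw [Function.iterate_add_apply, hy2.2]
        exact hy5 j (Finset.mem_Ioc.2 ⟨Nat.lt_of_add_lt_add_right hn, by omega⟩)
    show f^[K (z + y)] (z + y) = _
    rw [hKy, Function.iterate_add_apply, hy2.2]
  obtain ⟨parts, hpn, hpc⟩ := exists_parts (fun z => z ∈ X ∧ z ≠ 0) fst rst d hdlt
  have hp0 : parts 0 = [] := hpn 0 (fun h0 => h0.2 rfl)
  have hsum : ∀ z ∈ X, (parts z).sum = z := by
    intro z
    induction hn : d z using Nat.strong_induction_on generalizing z with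
    | _ n ih =>
      intro hz
      by_cases h0 : z = 0
      · rw [h0, hp0]; rfl
      · rw [hpc z ⟨hz, h0⟩, List.sum_cons, ih (d (rst z)) (hn ▸ hdlt z ⟨hz, h0⟩) (rst z) rfl
          (hrX z ⟨hz, h0⟩), hfr]
  set F : G → G := fun z => ((parts z).map (fun x => x + t (α x))).sum with hF
  have hF0 : F 0 = 0 := by simp only [hF, hp0]; rfl
  have hFc : ∀ z, z ∈ X ∧ z ≠ 0 → F z = (fst z + t (α (fst z))) + F (rst z) := by
    intro z hz
    simp only [hF]
    rw [hpc z hz, List.map_cons, List.sum_cons]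
  have hFcl : ∀ z ∈ X, F z - z ∈ AddSubgroup.closure (range t) := by
    intro z
    induction hn : d z using Nat.strong_induction_on generalizing z with
    | _ n ih =>
      intro hz
      by_cases h0 : z = 0
      · rw [h0, hF0, sub_zero]; exact zero_mem _
      · have h1 := ih (d (rst z)) (hn ▸ hdlt z ⟨hz, h0⟩) (rst z) rfl (hrX z ⟨hz, h0⟩)
        have h2 : F z - z = t (α (fst z)) + (F (rst z) - rst z) := by
          have h3 : F z - (fst z + rst z) = t (α (fst z)) + (F (rst z) - rst z) := by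
            rw [hFc z ⟨hz, h0⟩]; abel
          rwa [hfr z] at h3
        rw [h2]
        exact add_mem (AddSubgroup.subset_closure ⟨_, rfl⟩) h1
  have hloc : ∀ x ∈ X, ∀ᶠ w in (p : Filter G), x + w ∈ X ∧ parts (x + w) = parts x ++ parts w := by
    intro x
    induction hn : d x using Nat.strong_induction_on generalizing x with
    | _ n ih =>
      intro hx
      by_cases h0 : x = 0
      · subst h0
        filter_upwards [hXp] with w hw
        rw [zero_add, hp0]
        exact ⟨hw, rfl⟩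
      · have h1 := ih (d (rst x)) (hn ▸ hdlt x ⟨hx, h0⟩) (rst x) rfl (hrX x ⟨hx, h0⟩)
        filter_upwards [h1, hSt x ⟨hx, h0⟩] with w hw1 hw2
        refine ⟨hw2.1.1, ?_⟩
        have h3 : rst (x + w) = rst x + w := by
          simp only [hrst]
          rw [hw2.2]; abel
        rw [hpc _ hw2.1, hpc x ⟨hx, h0⟩, hw2.2, h3, hw1.2, List.cons_append]
  have hFadd : ∀ x ∈ X, ∀ᶠ w in (p : Filter G), x + w ∈ X ∧ F (x + w) = F x + F w := by
    intro x hx
    filter_upwards [hloc x hx] with w hw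
    refine ⟨hw.1, ?_⟩
    simp only [hF]
    rw [hw.2, List.map_append, List.sum_append]
  obtain ⟨g, dg, hdg, hg⟩ := exists_g hS.mono hS.cov t c2 f
  set e : G → G := fun z => if hz : ∃ a, IsLev H z a then z - g z - t hz.choose else 0 with he
  have hee : ∀ z a, IsLev H z a → e z = z - g z - t a := by
    intro z a ha
    have hex : ∃ a, IsLev H z a := ⟨a, ha⟩
    have heq : hex.choose = a := hex.choose_spec.unique ha
    simp only [he]
    rw [dif_pos hex, heq]
  obtain ⟨dl, hdn, hdc⟩ := exists_parts (fun z => z ≠ 0) e g dg hdg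
  have hd0 : dl 0 = [] := hdn 0 (fun h0 => h0 rfl)
  have hstep : ∀ (x u : G), x ≠ 0 → u ∈ H (α x) → f^[d x] (u + x) = u →
      dl (u + (x + t (α x))) = x :: dl u := by
    intro x u hx0 hu hfu
    have hux : u + x ∈ H (α x) := add_mem hu (hα x).1
    have hlev : IsLev H (u + (x + t (α x))) (α x) := by
      refine ⟨?_, ?_⟩
      · intro hmem
        apply hS.t_not (α x)
        have := sub_mem hmem hux
        convert this using 1
        abel
      · intro b hb
        rw [← add_assoc]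
        exact add_mem (hS.mono hb.le hux) (hS.t_mem _ _ hb)
    have h1 : u + (x + t (α x)) - t (α x) = u + x := by abel
    have h2 : f^[c2 (α x)] (u + (x + t (α x)) - t (α x)) = u := by
      rw [h1, (hα x).2, hfu]
    have h3 : g (u + (x + t (α x))) = u := by
      rw [hg _ _ hlev (by rw [h2]; exact hu), h2]
    have hne : u + (x + t (α x)) ≠ 0 := by
      intro h0
      exact hlev.1 (by rw [h0]; exact zero_mem _)
    rw [hdc _ hne, hee _ _ hlev, h3]
    congr 1
    abel
  have hle : ∀ (x : G) (β γ : I), x ∈ H γ → x ∉ H β → β ≤ γ := by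
    intro x β γ h1 h2
    by_contra hcon
    exact h2 (hS.mono (not_le.1 hcon).le h1)
  have hPx : ∀ (β : I) (z : G), Path H f d β z → z ∉ H β := by
    intro β z hz
    have := (hz.2 0 (zero_mem _)).2 0 (h.d_pos hz.1)
    simpa using this
  have hpath : ∀ z, z ∈ X ∧ z ≠ 0 → ∀ β, Path H f d β z → Path H f d β (fst z) ∧
      (rst z ≠ 0 → ∃ γ, β ≤ γ ∧ Path H f d γ (rst z) ∧ fst z ∈ H γ ∧ t (α (fst z)) ∈ H γ) := by
    intro z hz β hβ
    obtain ⟨h1, h2, h3⟩ := hf1 z hz
    by_cases h0 : rst z = 0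
    · have h4 : fst z = z := by have := hfr z; rwa [h0, add_zero] at this
      exact ⟨by rw [h4]; exact hβ, fun h5 => (h5 h0).elim⟩
    · obtain ⟨-, -, ⟨γ, hγ1, hγ2, hγ3⟩, h5, h6⟩ := (hWx _ h1).1 _ h3 h0
      rw [hfr z] at h5 h6
      have h7 : fst z ∉ H β := by
        have h8 := (hβ.2 0 (zero_mem _)).2 (d (rst z)) (hdlt z hz)
        rw [zero_add, h6] at h8
        exact h8
      have h9 : β ≤ γ := hle _ _ _ hγ2 h7
      refine ⟨⟨h2, fun u hu => ?_⟩, fun _ => ⟨γ, h9, hγ1, hγ2, hγ3⟩⟩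
      have h10 : f^[d (rst z)] (u + z) = u + fst z := by
        have := (hγ1.2 (u + fst z) (add_mem (hS.mono h9 hu) hγ2)).1
        rwa [add_assoc, hfr z] at this
      refine ⟨?_, ?_⟩
      · rw [← h10, ← Function.iterate_add_apply, ← h5]
        exact (hβ.2 u hu).1
      · intro j hj
        rw [← h10, ← Function.iterate_add_apply]
        exact (hβ.2 u hu).2 _ (by omega)
  have hstep' : ∀ (x u : G) (β : I), Path H f d β x → u ∈ H β →
      dl (u + (x + t (α x))) = x :: dl u := by
    intro x u β hβ hu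
    refine hstep x u hβ.1 (hS.mono (hle x β (α x) (hα x).1 (hPx β x hβ)) hu) (hβ.2 u hu).1
  have hdlF : ∀ z, z ∈ X → z ≠ 0 → ∀ β, Path H f d β z → ∀ u ∈ H β,
      dl (u + F z) = (parts z).reverse ++ dl u := by
    intro z
    induction hn : d z using Nat.strong_induction_on generalizing z with
    | _ n ih =>
      intro hz hz0 β hβ u hu
      obtain ⟨h1, h2⟩ := hpath z ⟨hz, hz0⟩ β hβ
      have h3 := hstep' (fst z) u β h1 hu
      rw [hFc z ⟨hz, hz0⟩, hpc z ⟨hz, hz0⟩, List.reverse_cons]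
      by_cases h0 : rst z = 0
      · rw [h0, hF0, hp0, add_zero, h3]; rfl
      · obtain ⟨γ, hγ1, hγ2, hγ3, hγ4⟩ := h2 h0
        have h4 := ih (d (rst z)) (hn ▸ hdlt z ⟨hz, hz0⟩) (rst z) rfl (hrX z ⟨hz, hz0⟩) h0 γ hγ2
          (u + (fst z + t (α (fst z)))) (add_mem (hS.mono hγ1 hu) (add_mem hγ3 hγ4))
        rw [← add_assoc, h4, h3]
        simp
  have hstep0 : ∀ x : G, x ≠ 0 → dl (x + t (α x)) = [x] := by
    intro x hx
    have := hstep x 0 hx (zero_mem _) (by
      rw [zero_add]
      apply h.d_eq_zero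
      rw [h.d_iter]; omega)
    rwa [zero_add, hd0] at this
  have hdlX : ∀ z ∈ X, dl (F z) = (parts z).reverse := by
    intro z hz
    by_cases hz0 : z = 0
    · rw [hz0, hF0, hd0, hp0]; rfl
    obtain ⟨h1, h2, h3⟩ := hf1 z ⟨hz, hz0⟩
    rw [hFc z ⟨hz, hz0⟩, hpc z ⟨hz, hz0⟩, List.reverse_cons]
    by_cases h0 : rst z = 0
    · rw [h0, hF0, hp0, add_zero, hstep0 _ h2]; rfl
    · obtain ⟨-, -, ⟨γ, hγ1, hγ2, hγ3⟩, -, -⟩ := (hWx _ h1).1 _ h3 h0
      rw [hdlF _ (hrX z ⟨hz, hz0⟩) h0 γ hγ1 _ (add_mem hγ2 hγ3), hstep0 _ h2]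
  set hinv : G → G := fun z => (dl z).sum with hhinv
  have hinvF : ∀ v ∈ X, hinv (F v) = v := by
    intro v hv
    simp only [hhinv]
    rw [hdlX v hv, List.sum_reverse, hsum v hv]
  have hcl3 : ∀ L : List G, (∀ᶠ w in (p : Filter G), L.sum + w ∈ X ∧
      parts (L.sum + w) = L ++ parts w) → L.sum ∈ X ∧ parts L.sum = L := by
    intro L
    induction L with
    | nil =>
      intro _
      rw [List.sum_nil]
      exact ⟨hX0, hp0⟩
    | cons x1 L ih =>
      intro hL
      have hL2 : ∀ᶠ w in (p : Filter G), ((x1 :: L).sum + w ∈ X ∧ (x1 :: L).sum + w ≠ 0) ∧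
          fst ((x1 :: L).sum + w) = x1 ∧ rst ((x1 :: L).sum + w) = L.sum + w ∧
          parts (L.sum + w) = L ++ parts w := by
        filter_upwards [hL] with w hw
        have hP : (x1 :: L).sum + w ∈ X ∧ (x1 :: L).sum + w ≠ 0 := by
          by_contra hcon
          have := hpn _ hcon
          rw [hw.2] at this
          simp at this
        have h1 := hpc _ hP
        rw [hw.2, List.cons_append, List.cons.injEq] at h1
        have h2 : rst ((x1 :: L).sum + w) = L.sum + w := by
          simp only [hrst]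
          rw [← h1.1, List.sum_cons]; abel
        exact ⟨hP, h1.1.symm, h2, by rw [← h2]; exact h1.2.symm⟩
      have hIH := ih (by
        filter_upwards [hL2] with w hw
        refine ⟨?_, hw.2.2.2⟩
        rw [← hw.2.2.1]
        exact hrX _ hw.1)
      obtain ⟨w0, hw0⟩ := hL2.exists
      have hx1 := hf1 _ hw0.1
      rw [hw0.2.1] at hx1
      have hLW : L.sum ∈ W x1 := by
        refine (hWx x1 hx1.1).2.2.2 _ (Or.inl hIH.1) ?_
        filter_upwards [hL2] with w hw
        have := (hf1 _ hw.1).2.2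
        rwa [hw.2.1, hw.2.2.1] at this
      have hv : (x1 :: L).sum ∈ X ∧ (x1 :: L).sum ≠ 0 := by
        rw [List.sum_cons]
        by_cases h0 : L.sum = 0
        · rw [h0, add_zero]; exact ⟨hx1.1, hx1.2.1⟩
        · have h1 := (hWx x1 hx1.1).1 _ hLW h0
          refine ⟨h1.2.1, fun h2 => ?_⟩
          have h3 := h1.2.2.2.1
          rw [h2, h.d0] at h3
          have := h.d_pos hx1.2.1
          omega
      obtain ⟨w, hw1, hw2⟩ := (hL2.and (hSt _ hv)).exists
      have hfstv : fst (x1 :: L).sum = x1 := by rw [← hw2.2, hw1.2.1]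
      have hrstv : rst (x1 :: L).sum = L.sum := by
        have := hfr (x1 :: L).sum
        rw [hfstv, List.sum_cons] at this
        rw [List.sum_cons]
        exact add_left_cancel this
      refine ⟨hv.1, ?_⟩
      rw [hpc _ hv, hfstv, hrstv, hIH.2]
  have hsat : ∀ z' : G, (∀ᶠ w in (p : Filter G), ∃ b ∈ X, F b = z' + F w) →
      ∃ v ∈ X, F v = z' := by
    intro z' hz'
    obtain ⟨i, hi⟩ := hS.cov z'
    have hpt := path_typ hS.mono hS.cov h hd' hp i
    have hall : ∀ᶠ w in (p : Filter G), (dl z').reverse.sum + w ∈ X ∧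
        parts ((dl z').reverse.sum + w) = (dl z').reverse ++ parts w ∧
        F ((dl z').reverse.sum + w) = z' + F w := by
      filter_upwards [hz', hpt, hXp, hp.1] with w ⟨b, hb, hbF⟩ ⟨β, hβ, hβw⟩ hwX hw0
      have h1 := hdlF w hwX hw0 β hβw z' (hS.mono hβ hi)
      rw [← hbF, hdlX b hb] at h1
      have h2 : parts b = (dl z').reverse ++ parts w := by
        have := congrArg List.reverse h1
        rwa [List.reverse_reverse, List.reverse_append, List.reverse_reverse] at this
      have h3 : b = (dl z').reverse.sum + w := by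
        rw [← hsum b hb, h2, List.sum_append, hsum w hwX]
      rw [← h3]
      exact ⟨hb, h2, hbF⟩
    have h4 := hcl3 (dl z').reverse (hall.mono fun w hw => ⟨hw.1, hw.2.1⟩)
    refine ⟨_, h4.1, ?_⟩
    obtain ⟨w, hw1, hw2, hw3⟩ := hall.exists
    have h5 : F ((dl z').reverse.sum + w) = F (dl z').reverse.sum + F w := by
      simp only [hF]
      rw [hw2, List.map_append, List.sum_append, h4.2]
    rw [h5] at hw3
    exact add_right_cancel hw3
  have hidemF : p.map F + p.map F = p.map F := by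
    refine (uf_eq fun C hC => ?_).symm
    rw [mem_add_iff]
    have h1 : {x | F x ∈ C} ∈ p + p := by rw [hpp]; exact hC
    rw [mem_add_iff] at h1
    show ∀ᶠ x in Filter.map F p, ∀ᶠ y in Filter.map F p, x + y ∈ C
    rw [Filter.eventually_map]
    filter_upwards [h1, hXp] with x hx hxX
    rw [Filter.eventually_map]
    filter_upwards [hx, hFadd x hxX] with w hw1 hw2
    rw [← hw2.2]
    exact hw1
  have hFne : ∀ x, x ∈ X → x ≠ 0 → F x ≠ 0 := by
    intro x hx hx0 hF0'
    have h1 := hinvF x hx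
    rw [hF0'] at h1
    simp only [hhinv] at h1
    rw [hd0] at h1
    exact hx0 h1.symm
  have himg : ∀ B ∈ p, F '' B ∈ p.map F := by
    intro B hB
    rw [Ultrafilter.mem_map]
    exact mem_of_superset hB (subset_preimage_image F B)
  refine ⟨F, X, hXp, hFcl, hidemF, ?_, ?_⟩
  · rw [Ultrafilter.mem_map]
    filter_upwards [hXp, hp.1] with x h1 h2
    exact hFne x h1 h2
  · intro s hs
    have hup : ∀ B ∈ p, ∀ᶠ z' in (s : Filter G), ∀ᶠ w in (p : Filter G), z' + F w ∈ F '' B := by
      intro B hB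
      have h1 := himg B hB
      rw [← hs, mem_add_iff] at h1
      filter_upwards [h1] with z' hz'
      have hz' : ∀ᶠ y in Filter.map F p, z' + y ∈ F '' B := hz'
      rwa [Filter.eventually_map] at hz'
    have hsX : ∀ᶠ z' in (s : Filter G), ∃ v ∈ X, F v = z' := by
      filter_upwards [hup X hXp] with z' hz'
      exact hsat z' (hz'.mono fun w hw => hw)
    have hs'X : X ∈ s.map hinv := by
      rw [Ultrafilter.mem_map]
      filter_upwards [hsX] with z' ⟨v, hv, hvz⟩
      show hinv z' ∈ X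
      rw [← hvz, hinvF v hv]; exact hv
    have hs'p : s.map hinv + p = p := by
      refine (uf_eq fun B hB => ?_).symm
      rw [mem_add_iff]
      show ∀ᶠ x in Filter.map hinv s, ∀ᶠ y in (p : Filter G), x + y ∈ B
      rw [Filter.eventually_map]
      filter_upwards [hup (B ∩ X) (inter_mem hB hXp), hsX] with z' hz' ⟨v, hv, hvz⟩
      rw [← hvz, hinvF v hv]
      filter_upwards [hz', hFadd v hv] with w ⟨b, ⟨hbB, hbX⟩, hb⟩ hw2
      have h1 : F b = F (v + w) := by rw [hb, ← hvz, hw2.2]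
      have h2 : b = v + w := by rw [← hinvF b hbX, h1, hinvF _ hw2.1]
      rw [← h2]; exact hbB
    rcases zero_or (s.map hinv) with h0 | h0
    · left
      rw [Ultrafilter.mem_map] at h0
      filter_upwards [h0, hsX] with z' hz0 ⟨v, hv, hvz⟩
      have hz0 : hinv z' = 0 := hz0
      rw [← hvz, hinvF v hv] at hz0
      show z' = 0
      rw [← hvz, hz0, hF0]
    · right
      have h1 := hXD _ ⟨h0, hs'p⟩ hs'X
      refine uf_eq fun C hC => ?_
      rw [← h1, Ultrafilter.mem_map, Ultrafilter.mem_map]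
      filter_upwards [hC, hsX] with z' hz' ⟨v, hv, hvz⟩
      show F (hinv z') ∈ C
      rw [← hvz, hinvF v hv, hvz]
      exact hz'

end

end Pool.Agent.H272R3.MR
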