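import Pool.Agent.H272R3.MR.Reembed

set_option autoImplicit false

/-! The skeleton of an abelian group of singular cardinality. -/

universe u

open Filter Set Topology Cardinal Ordinal

namespace Pool.Agent.H272R3.MR

variable {G : Type u} [AddCommGroup G]

theorem mk_closure_lt (hinf : ℵ₀ < #G) {S : Set G} (hS : #S < #G) :
    #(AddSubgroup.closure S) < #G := by
  let φ : List (S × Bool) → G := fun l => (l.map (fun p => if p.2 then (p.1 : G) else -(p.1 : G))).sum
  have hneg : ∀ l : List (S × Bool), φ (l.map (fun p => (p.1, !p.2))) = -φ l := by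
    intro l
    induction l with
    | nil => simp [φ]
    | cons a l ih =>
      simp only [φ] at ih
      simp only [φ, List.map_cons, List.sum_cons, neg_add, ih]
      congr 1
      rcases a with ⟨a, _ | _⟩ <;> simp
  have hsub : ((AddSubgroup.closure S : AddSubgroup G) : Set G) ⊆ range φ := by
    intro x hx
    induction hx using AddSubgroup.closure_induction with
    | mem x hx => exact ⟨[(⟨x, hx⟩, true)], by simp [φ]⟩
    | zero => exact ⟨[], rfl⟩
    | add x y _ _ hx hy =>
      obtain ⟨l, rfl⟩ := hx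
      obtain ⟨l', rfl⟩ := hy
      exact ⟨l ++ l', by simp [φ]⟩
    | neg x _ hx =>
      obtain ⟨l, rfl⟩ := hx
      exact ⟨l.map (fun p => (p.1, !p.2)), hneg l⟩
  have h1 : #((AddSubgroup.closure S : AddSubgroup G) : Set G) ≤ max ℵ₀ #(S × Bool) :=
    (mk_le_mk_of_subset hsub).trans (mk_range_le.trans (mk_list_le_max _))
  refine h1.trans_lt (max_lt hinf ?_)
  rw [mk_prod, Cardinal.lift_uzero]
  exact mul_lt_of_lt hinf.le hS
    ((Cardinal.lift_lt_aleph0.2 (lt_aleph0_of_finite Bool)).trans hinf)

open Classical in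
theorem exists_skel (hinf : ℵ₀ ≤ #G) (hsing : (#G).ord.cof < #G) :
    ∃ (I : Type u) (_ : LinearOrder I) (_ : WellFoundedLT I) (H : I → AddSubgroup G) (t : I → G)
      (c1 : I → I) (c2 : I → ℕ), Skel H t c1 c2 ∧ #I < #G ∧ ∀ a, #(H a) < #G := by
  let A := (#G).ord.ToType
  have hA : #A = #G := mk_ord_toType _
  obtain ⟨e⟩ : Nonempty (G ≃ A) := Cardinal.eq.1 hA.symm
  have : NoMaxOrder A := noMaxOrder hinf
  have hcofinf : ℵ₀ ≤ (#G).ord.cof := by
    rw [aleph0_le_cof_iff, one_lt_cof_iff]
    exact isSuccLimit_ord hinf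
  have hunc : ℵ₀ < #G := hcofinf.trans_lt hsing
  obtain ⟨s, hs, hs'⟩ := exists_ord_cof_eq A
  have hscard : #s = (#G).ord.cof := by
    have := congrArg card hs'
    rw [card_type, card_ord, cof_toType] at this
    exact this
  have hsord : ord #s = typeLT s := by
    rw [hs', hscard, cof_toType]
  have hsinf : ℵ₀ ≤ #s := by rw [hscard]; exact hcofinf
  have hsG : #s < #G := by rw [hscard]; exact hsing
  have hIio : ∀ i : s, #(Iio i) < #s := fun i => mk_Iio_lt i hsord
  have hIic : ∀ i : s, #(Iic i) < #s := by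
    intro i
    have h1 : (Iic i : Set s) ⊆ insert i (Iio i) := by
      intro j hj
      rcases (show j ≤ i from hj).eq_or_lt with h | h
      · exact Or.inl h
      · exact Or.inr h
    refine (mk_le_mk_of_subset h1).trans_lt (mk_insert_le.trans_lt ?_)
    exact add_lt_of_lt hsinf (hIio i) (one_lt_aleph0.trans_le hsinf)
  -- the sets generating the subgroups
  have hexist : ∀ S : Set G, #S < #G → ∃ x : G, x ∉ AddSubgroup.closure S := by
    intro S hS
    by_contra hcon
    push Not at hcon
    have h1 := mk_closure_lt hunc hS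
    have h2 : AddSubgroup.closure S = ⊤ := by
      rw [eq_top_iff]; exact fun x _ => hcon x
    rw [h2] at h1
    have h3 : #(⊤ : AddSubgroup G) = #G := by
      have : #((⊤ : AddSubgroup G) : Set G) = #G := by
        rw [AddSubgroup.coe_top]; exact mk_univ
      exact this
    rw [h3] at h1
    exact lt_irrefl _ h1
  let wf : WellFounded (fun a b : s => a < b) := wellFounded_lt
  let Fn : ∀ a : s, (∀ b : s, b < a → G) → G := fun a rec =>
    if h : ∃ x : G, x ∉ AddSubgroup.closure ({x | e x < (a : A)} ∪ {y | ∃ b, ∃ h : b < a, rec b h = y})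
    then h.choose else 0
  let t : s → G := wf.fix Fn
  let S : s → Set G := fun a => {x | e x < (a : A)} ∪ {y | ∃ b, b < a ∧ t b = y}
  let H : s → AddSubgroup G := fun a => AddSubgroup.closure (S a)
  have hScard : ∀ a, #(S a) < #G := by
    intro a
    refine (mk_union_le _ _).trans_lt (add_lt_of_lt hinf ?_ ?_)
    · have h1 : #{x | e x < (a : A)} ≤ #(Iio (a : A)) :=
        mk_preimage_of_injective e (Iio (a : A)) e.injective
      have h2 : #(Iio (a : A)) < #A := mk_Iio_lt (a : A) (by simp [A])
      rw [hA] at h2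
      exact h1.trans_lt h2
    · have h1 : {y | ∃ b, b < a ∧ t b = y} ⊆ range t := by
        rintro y ⟨b, -, rfl⟩; exact ⟨b, rfl⟩
      exact (mk_le_mk_of_subset h1).trans_lt (mk_range_le.trans_lt hsG)
  have hHcard : ∀ a, #(H a) < #G := fun a => mk_closure_lt hunc (hScard a)
  have ht : ∀ a, t a ∉ H a := by
    intro a
    have h1 : t a = Fn a (fun b _ => t b) := WellFounded.fix_eq wf Fn a
    have h2 : ∃ x : G, x ∉ AddSubgroup.closure ({x | e x < (a : A)} ∪
        {y | ∃ b, ∃ _ : b < a, t b = y}) := by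
      obtain ⟨x, hx⟩ := hexist (S a) (hScard a)
      refine ⟨x, ?_⟩
      convert hx using 3
      simp only [S]
      congr 1
      ext y
      simp
    have h3 : t a ∉ AddSubgroup.closure ({x | e x < (a : A)} ∪
        {y | ∃ b, ∃ _ : b < a, t b = y}) := by
      rw [h1]
      simp only [Fn]
      rw [dif_pos h2]
      exact h2.choose_spec
    convert h3 using 3
    simp only [S]
    congr 1
    ext y
    simp
  have hmono : Monotone H := by
    intro a b hab
    apply AddSubgroup.closure_mono
    rintro x (hx | ⟨c, hc, rfl⟩)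
    · exact Or.inl (lt_of_lt_of_le (show e x < (a : A) from hx) (show (a : A) ≤ b from hab))
    · exact Or.inr ⟨c, hc.trans_le hab, rfl⟩
  have hcov : ∀ g, ∃ a, g ∈ H a := by
    intro g
    obtain ⟨x, hx⟩ := exists_gt (e g)
    obtain ⟨a, ha, hxa⟩ := hs x
    exact ⟨⟨a, ha⟩, AddSubgroup.subset_closure (Or.inl (lt_of_lt_of_le hx hxa))⟩
  obtain ⟨ε⟩ : Nonempty (s ≃ s × s) := by
    apply Cardinal.eq.1
    rw [mk_prod, Cardinal.lift_id, mul_eq_self hsinf]
  have hsInf : Infinite s := Cardinal.infinite_iff.2 hsinf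
  have hc1 : ∀ (β : s) (g : G), ∃ a, β < a ∧ g ∈ H a ∧ (ε a).1 = β := by
    intro β g
    obtain ⟨b0, hb0⟩ := hcov g
    by_contra hcon
    push Not at hcon
    have h1 : ∀ j : s, ε.symm (β, j) ∈ Iic (max β b0) := by
      intro j
      by_contra h2
      have h2 : max β b0 < ε.symm (β, j) := not_le.1 h2
      refine hcon (ε.symm (β, j)) ((le_max_left _ _).trans_lt h2)
        (hmono ((le_max_right _ _).trans h2.le) hb0) ?_
      rw [Equiv.apply_symm_apply]
    have h3 : #s ≤ #(Iic (max β b0)) := by
      refine mk_le_of_injective (f := fun j => (⟨ε.symm (β, j), h1 j⟩ : Iic (max β b0))) ?_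
      intro j j' hj
      have := congrArg Subtype.val hj
      have := ε.symm.injective this
      exact (Prod.ext_iff.1 this).2
    exact absurd (hIic (max β b0)) (not_lt.2 h3)
  let φ : ℕ ↪ s := Infinite.natEmbedding s
  refine ⟨s, inferInstance, inferInstance, H, t, fun a => (ε a).1,
    fun a => Function.invFun φ (ε a).1, ⟨hmono, hcov, ht, ?_, hc1, ?_⟩, hsG, hHcard⟩
  · intro a b hab
    exact AddSubgroup.subset_closure (Or.inr ⟨a, hab, rfl⟩)
  · intro n g
    obtain ⟨a, -, h2, h3⟩ := hc1 (φ n) g
    refine ⟨a, h2, ?_⟩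
    show Function.invFun φ (ε a).1 = n
    rw [h3]
    exact Function.leftInverse_invFun φ.injective n

end Pool.Agent.H272R3.MR
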