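import Pool.Agent.H272R3.MR.Alg2

set_option autoImplicit false

/-! The local neighbourhoods used for the re-embedding. -/

open Filter Set Topology

attribute [local instance] Ultrafilter.add Ultrafilter.addSemigroup

namespace Pool.Agent.H272R3.MR

variable {G : Type*} [AddCommGroup G]

theorem exists_X {p : Ultrafilter G} (hpp : p + p = p) (hfin : (DD p).Finite)
    (hrz : ∀ a ∈ DD p, ∀ b ∈ DD p, a + b = b) (hfree : ({0}ᶜ : Set G) ∈ p) :
    ∃ X : Set G, (0 : G) ∈ X ∧ X ∈ p ∧ (∀ z ∈ X, ∀ᶠ y in (p : Filter G), z + y ∈ X) ∧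
      ∀ x ∈ X, ∀ s ∈ DD p, s ≠ p → ¬ ∀ᶠ v in (s : Filter G), x + v ∈ X := by
  have hpD : p ∈ DD p := ⟨hfree, hpp⟩
  have hA : ∀ s : Ultrafilter G, ∃ A : Set G, s ∈ DD p → s ≠ p → A ∈ s ∧ Aᶜ ∈ p ∧ (0 : G) ∉ A := by
    intro s
    by_cases h1 : s ∈ DD p ∧ s ≠ p
    · have : ∃ A ∈ s, A ∉ p := by
        by_contra hno
        push Not at hno
        exact h1.2 (uf_eq hno)
      obtain ⟨A, hA, hA'⟩ := this
      refine ⟨A ∩ {0}ᶜ, fun _ _ => ⟨inter_mem hA h1.1.1, ?_, by simp⟩⟩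
      rw [Ultrafilter.compl_mem_iff_notMem]
      exact fun h => hA' (mem_of_superset h inter_subset_left)
    · exact ⟨∅, fun h2 h3 => (h1 ⟨h2, h3⟩).elim⟩
  choose A hA using hA
  set A' : Set G := {x | ∀ s ∈ DD p, s ≠ p → x ∉ A s ∧ ∀ᶠ v in (s : Filter G), x + v ∈ A s}
    with hA'
  have hA'p : A' ∈ p := by
    have : ∀ᶠ x in (p : Filter G), ∀ s ∈ DD p, s ≠ p → x ∉ A s ∧
        ∀ᶠ v in (s : Filter G), x + v ∈ A s := by
      rw [Filter.eventually_all_finite hfin]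
      intro s hs
      by_cases hsp : s = p
      · exact Eventually.of_forall fun x h1 => (h1 hsp).elim
      · obtain ⟨h1, h2, h3⟩ := hA s hs hsp
        have h4 : A s ∈ p + s := by rw [hrz p hpD s hs]; exact h1
        rw [mem_add_iff] at h4
        filter_upwards [h2, h4] with x hx1 hx2 _
        exact ⟨hx1, hx2⟩
    exact this
  have hA'2 : ∀ᶠ x in (p : Filter G), ∀ᶠ y in (p : Filter G), x + y ∈ A' := by
    have : A' ∈ p + p := by rw [hpp]; exact hA'p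
    rwa [mem_add_iff] at this
  have hXp : {z | z ∈ A' ∧ ∀ᶠ y in (p : Filter G), z + y ∈ A'} ∈ p := by
    filter_upwards [hA'p, hA'2] with x h1 h2
    exact ⟨h1, h2⟩
  refine ⟨insert 0 {z | z ∈ A' ∧ ∀ᶠ y in (p : Filter G), z + y ∈ A'}, mem_insert _ _, ?_, ?_, ?_⟩
  · exact mem_of_superset hXp (subset_insert _ _)
  · rintro z (rfl | ⟨hz1, hz2⟩)
    · filter_upwards [hXp] with y hy
      rw [zero_add]
      exact Or.inr hy
    · have h3 : {y | z + y ∈ A'} ∈ p + p := by rw [hpp]; exact hz2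
      rw [mem_add_iff] at h3
      filter_upwards [hz2, h3] with y hy1 hy2
      refine Or.inr ⟨hy1, ?_⟩
      filter_upwards [hy2] with y' hy'
      have : z + (y + y') ∈ A' := hy'
      rwa [← add_assoc] at this
  · intro x hx s hs hsp hcon
    obtain ⟨h1, h2, h3⟩ := hA s hs hsp
    have hsub : ∀ w ∈ insert 0 {z | z ∈ A' ∧ ∀ᶠ y in (p : Filter G), z + y ∈ A'}, w ∉ A s := by
      rintro w (rfl | ⟨hw, -⟩)
      · exact h3
      · exact (hw s hs hsp).1
    have h4 : ∀ᶠ v in (s : Filter G), x + v ∈ A s := by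
      rcases hx with rfl | ⟨hx, -⟩
      · simpa using h1
      · exact (hx s hs hsp).2
    obtain ⟨v, hv1, hv2⟩ := (hcon.and h4).exists
    exact hsub _ hv1 hv2

theorem exists_B {p : Ultrafilter G} {X : Set G} (h0 : (0 : G) ∈ X)
    (hX : ∀ x ∈ X, ∀ s ∈ DD p, s ≠ p → ¬ ∀ᶠ v in (s : Filter G), x + v ∈ X)
    {x : G} (hx : x ∈ X) {C : Set G} (hC : C ∈ p) :
    ∃ B ∈ p, ∀ v, (∀ᶠ y in (p : Filter G), v + y ∈ B) → (v ∈ X ∨ x + v ∈ X) → v ∈ C ∨ v = 0 := by
  by_contra hcon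
  push Not at hcon
  set T : Set G → Set G := fun B => {v | (∀ᶠ y in (p : Filter G), v + y ∈ B) ∧
    (v ∈ X ∨ x + v ∈ X) ∧ v ∉ C ∧ v ≠ 0} with hT
  have hTne : ∀ B ∈ p, (T B).Nonempty := by
    intro B hB
    obtain ⟨v, h1, h2, h3, h4⟩ := hcon B hB
    exact ⟨v, h1, h2, h3, h4⟩
  have hTmono : ∀ B B' : Set G, B ⊆ B' → T B ⊆ T B' := by
    rintro B B' hBB v ⟨h1, h2⟩
    exact ⟨h1.mono fun y hy => hBB hy, h2⟩
  let F : Filter G :=
    { sets := {S | ∃ B ∈ p, T B ⊆ S}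
      univ_sets := ⟨univ, univ_mem, subset_univ _⟩
      sets_of_superset := by
        rintro S S' ⟨B, hB, hBS⟩ hSS
        exact ⟨B, hB, hBS.trans hSS⟩
      inter_sets := by
        rintro S S' ⟨B, hB, hBS⟩ ⟨B', hB', hBS'⟩
        refine ⟨B ∩ B', inter_mem hB hB', subset_inter ?_ ?_⟩
        · exact (hTmono _ _ inter_subset_left).trans hBS
        · exact (hTmono _ _ inter_subset_right).trans hBS' }
  have hF : F.NeBot := by
    constructor
    intro hbot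
    have : (∅ : Set G) ∈ F := by rw [hbot]; exact mem_bot
    obtain ⟨B, hB, hB'⟩ := this
    obtain ⟨v, hv⟩ := hTne B hB
    exact hB' hv
  let s : Ultrafilter G := Ultrafilter.of F
  have hs : ∀ B ∈ p, T B ∈ s := fun B hB => Ultrafilter.of_le F ⟨B, hB, subset_rfl⟩
  have hsu := hs univ univ_mem
  have hs0 : ({0}ᶜ : Set G) ∈ s := mem_of_superset hsu fun v hv => hv.2.2.2
  have hsp : s + p = p := by
    refine (uf_eq fun B hB => ?_).symm
    rw [mem_add_iff]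
    filter_upwards [hs B hB] with v hv
    exact hv.1
  have hsC : C ∉ s := by
    rw [← Ultrafilter.compl_mem_iff_notMem]
    exact mem_of_superset hsu fun v hv => hv.2.2.1
  have hne : s ≠ p := fun h => hsC (h ▸ hC)
  have hor : {v | v ∈ X} ∪ {v | x + v ∈ X} ∈ s := mem_of_superset hsu fun v hv => hv.2.1
  rcases Ultrafilter.union_mem_iff.1 hor with h1 | h1
  · refine hX 0 h0 s ⟨hs0, hsp⟩ hne ?_
    filter_upwards [h1] with v hv
    rw [zero_add]; exact hv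
  · exact hX x hx s ⟨hs0, hsp⟩ hne h1

section stage
variable {I : Type*} [LinearOrder I]

/-- `w` can be put on top of every element of `H β`. -/
def Path (H : I → AddSubgroup G) (f : G → G) (d : G → ℕ) (β : I) (w : G) : Prop :=
  w ≠ 0 ∧ ∀ u ∈ H β, f^[d w] (u + w) = u ∧ ∀ j < d w, f^[j] (u + w) ∉ H β

theorem path_typ {H : I → AddSubgroup G} (hH : Monotone H) (hcov : ∀ g, ∃ a, g ∈ H a)
    {q : Ultrafilter G} {f : G → G} {d : G → ℕ} (h : Dec q f d)
    (hd' : ∀ i, ∀ᶠ y in (q : Filter G), ∀ x ∈ H i, f (x + y) = x ∧ x + y ∉ H i)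
    {p : Ultrafilter G} (hp : p ∈ CC q) (i : I) :
    ∀ᶠ w in (p : Filter G), ∃ β, i ≤ β ∧ Path H f d β w := by
  have hQ : QO q {w | w = 0 ∨ ∃ β, i ≤ β ∧ Path H f d β w} := by
    rintro w (rfl | ⟨β, hβ, hw0, hw⟩)
    · filter_upwards [hd' i] with y hy
      rw [zero_add]
      have hy0 : y ≠ 0 := by
        intro h0
        apply (hy 0 (zero_mem _)).2
        rw [h0, add_zero]
        exact zero_mem _
      have hfy : f y = 0 := by simpa using (hy 0 (zero_mem _)).1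
      have hdy : d y = 1 := by rw [h.ds y hy0, hfy, h.d0]
      refine Or.inr ⟨i, le_rfl, hy0, fun u hu => ⟨?_, ?_⟩⟩
      · rw [hdy, Function.iterate_one]; exact (hy u hu).1
      · intro j hj
        rw [hdy] at hj
        obtain rfl : j = 0 := by omega
        exact (hy u hu).2
    · obtain ⟨γ0, hγ0⟩ := hcov w
      obtain ⟨γ, hγ1, hγ2⟩ : ∃ γ, w ∈ H γ ∧ β ≤ γ :=
        ⟨max γ0 β, hH (le_max_left _ _) hγ0, le_max_right _ _⟩
      filter_upwards [hd' γ] with y hy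
      have hwy := hy w hγ1
      have hwy0 : w + y ≠ 0 := fun h0 => hwy.2 (by rw [h0]; exact zero_mem _)
      have hdwy : d (w + y) = d w + 1 := by rw [h.ds _ hwy0, hwy.1]
      refine Or.inr ⟨β, hβ, hwy0, fun u hu => ?_⟩
      have huw : u + w ∈ H γ := add_mem (hH hγ2 hu) hγ1
      have h3 := hy (u + w) huw
      refine ⟨?_, ?_⟩
      · rw [hdwy, ← add_assoc, Function.iterate_succ_apply, h3.1]
        exact (hw u hu).1
      · intro j hj
        rw [hdwy] at hj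
        rw [← add_assoc]
        cases j with
        | zero => exact fun hmem => h3.2 (hH hγ2 hmem)
        | succ j =>
          rw [Function.iterate_succ_apply, h3.1]
          exact (hw u hu).2 j (by omega)
  filter_upwards [hp.2 _ hQ (Or.inl rfl), hp.1] with w hw hw0
  exact hw.resolve_left hw0

theorem exists_W {H : I → AddSubgroup G} (hH : Monotone H) (hcov : ∀ g, ∃ a, g ∈ H a)
    {q : Ultrafilter G} {f : G → G} {d : G → ℕ} (h : Dec q f d)
    (hd' : ∀ i, ∀ᶠ y in (q : Filter G), ∀ x ∈ H i, f (x + y) = x ∧ x + y ∉ H i)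
    {p : Ultrafilter G} (hp : p ∈ CC q) (hpp : p + p = p) (hfin : (DD p).Finite)
    (hrz : ∀ a ∈ DD p, ∀ b ∈ DD p, a + b = b) (m : G → G) :
    ∃ (X : Set G) (W : G → Set G), (0 : G) ∈ X ∧ X ∈ p ∧
      (∀ z ∈ X, ∀ᶠ y in (p : Filter G), z + y ∈ X) ∧ (∀ s ∈ DD p, X ∈ s → s = p) ∧
      ∀ x ∈ X, (∀ w ∈ W x, w ≠ 0 → w ∈ X ∧ x + w ∈ X ∧
          (∃ β, Path H f d β w ∧ x ∈ H β ∧ m x ∈ H β) ∧ d (x + w) = d x + d w ∧
          f^[d w] (x + w) = x) ∧
        (0 : G) ∈ W x ∧ (∀ v ∈ W x, ∀ᶠ y in (p : Filter G), v + y ∈ W x) ∧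
        (∀ v, (v ∈ X ∨ x + v ∈ X) → (∀ᶠ y in (p : Filter G), v + y ∈ W x) → v ∈ W x) := by
  obtain ⟨X, hX0, hXp, hX1, hX2⟩ := exists_X hpp hfin hrz hp.1
  have hXD : ∀ s ∈ DD p, X ∈ s → s = p := by
    intro s hs hXs
    by_contra hne
    refine hX2 0 hX0 s hs hne ?_
    filter_upwards [hXs] with v hv
    rw [zero_add]; exact hv
  have hW : ∀ x, ∃ W : Set G, x ∈ X → (∀ w ∈ W, w ≠ 0 → w ∈ X ∧ x + w ∈ X ∧
          (∃ β, Path H f d β w ∧ x ∈ H β ∧ m x ∈ H β) ∧ d (x + w) = d x + d w ∧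
          f^[d w] (x + w) = x) ∧
        (0 : G) ∈ W ∧ (∀ v ∈ W, ∀ᶠ y in (p : Filter G), v + y ∈ W) ∧
        (∀ v, (v ∈ X ∨ x + v ∈ X) → (∀ᶠ y in (p : Filter G), v + y ∈ W) → v ∈ W) := by
    intro x
    by_cases hx : x ∈ X
    swap
    · exact ⟨∅, fun h1 => (hx h1).elim⟩
    set C : Set G := {w | w ∈ X ∧ x + w ∈ X ∧
          (∃ β, Path H f d β w ∧ x ∈ H β ∧ m x ∈ H β) ∧ d (x + w) = d x + d w ∧
          f^[d w] (x + w) = x} with hC
    have hCp : C ∈ p := by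
      obtain ⟨i1, hi1⟩ := hcov x
      obtain ⟨i2, hi2⟩ := hcov (m x)
      filter_upwards [hXp, hX1 x hx, path_typ hH hcov h hd' hp (max i1 i2), h.E_mem hp x]
        with w h1 h2 h3 h4
      obtain ⟨β, hβ, hβw⟩ := h3
      exact ⟨h1, h2, ⟨β, hβw, hH ((le_max_left _ _).trans hβ) hi1,
        hH ((le_max_right _ _).trans hβ) hi2⟩, h4.1, h4.2⟩
    obtain ⟨B, hB, hBC⟩ := exists_B hX0 hX2 hx hCp
    refine ⟨{v | (∀ᶠ y in (p : Filter G), v + y ∈ B) ∧ (v ∈ X ∨ x + v ∈ X)}, fun _ =>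
      ⟨?_, ?_, ?_, ?_⟩⟩
    · rintro w ⟨hw1, hw2⟩ hw0
      exact (hBC w hw1 hw2).resolve_right hw0
    · refine ⟨?_, Or.inl hX0⟩
      simpa using hB
    · rintro v ⟨hv1, hv2⟩
      have hvX : v ∈ X := by
        rcases hBC v hv1 hv2 with h1 | h1
        · exact h1.1
        · rw [h1]; exact hX0
      have h3 : {y | v + y ∈ B} ∈ p + p := by rw [hpp]; exact hv1
      rw [mem_add_iff] at h3
      filter_upwards [hX1 v hvX, h3] with y hy1 hy2
      refine ⟨?_, Or.inl hy1⟩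
      filter_upwards [hy2] with y' hy'
      have : v + (y + y') ∈ B := hy'
      rwa [← add_assoc] at this
    · intro v hv hev
      refine ⟨?_, hv⟩
      have h3 : {y | v + y ∈ B} ∈ p + p := by
        rw [mem_add_iff]
        filter_upwards [hev] with y hy
        filter_upwards [hy.1] with y' hy'
        show v + (y + y') ∈ B
        rwa [← add_assoc]
      rw [hpp] at h3
      exact h3
  choose W hW using hW
  exact ⟨X, W, hX0, hXp, hX1, hXD, fun x hx => hW x hx⟩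

end stage

end Pool.Agent.H272R3.MR
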